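import Pool.Agent.KS6_20.PS.Main

set_option autoImplicit false
open Set Filter Topology Metric

namespace Pool.Agent.Results.MP_9cdd18_an.EveryDimension

/-- `u` is plurisubharmonic on the open set `U` of `ℂⁿ`: upper semicontinuous, values in
`[-∞, ∞)`, and the sub-mean value inequality holds on every closed affine disc in `U`; the mean of
`u` is written as the limit of the means of `max u M`, so the inequality is asked for every real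
`M`. -/
def IsPsh {n : ℕ} (U : Set (Fin n → ℂ)) (u : (Fin n → ℂ) → EReal) : Prop :=
  UpperSemicontinuousOn u U ∧ (∀ x ∈ U, u x ≠ ⊤) ∧
    ∀ a b : Fin n → ℂ, (∀ z : ℂ, ‖z‖ ≤ 1 → a + z • b ∈ U) →
      ∀ M : ℝ, u a ≤
        ((((2 * Real.pi)⁻¹ *
          ∫ θ in (0:ℝ)..(2 * Real.pi),
            (max (u (a + Complex.exp ((θ : ℂ) * Complex.I) • b)) (M : EReal)).toReal) : ℝ) : EReal)

/-- `φ` is plurisubharmonic and maximal on `U`. -/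
def IsMaximal {n : ℕ} (U : Set (Fin n → ℂ)) (φ : (Fin n → ℂ) → EReal) : Prop :=
  IsPsh U φ ∧ ∀ v : (Fin n → ℂ) → EReal, IsPsh U v →
    (∃ K : Set (Fin n → ℂ), IsCompact K ∧ K ⊆ U ∧ ∀ x ∈ U \ K, v x ≤ φ x) → ∀ x ∈ U, v x ≤ φ x

/-- the Euclidean ball of `ℂⁿ` -/
def Ball {n : ℕ} (a : Fin n → ℂ) (r : ℝ) : Set (Fin n → ℂ) :=
  {x | ∑ i, ‖x i - a i‖ ^ 2 < r ^ 2}

/-- `φ` is a plurisubharmonic function on `Ω`, finite somewhere, with three properties: every point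
of `Ω` is the centre of an open ball with closure in `Ω` on which `φ` is maximal; `Ω` is the union
of two open sets on each of which `φ` is maximal; and `φ` is not maximal on `Ω`. -/
def OnlyLocallyMaximal {n : ℕ} (Ω : Set (Fin n → ℂ)) (φ : (Fin n → ℂ) → EReal) : Prop :=
  IsPsh Ω φ ∧ (∃ x ∈ Ω, φ x ≠ ⊥) ∧
    (∀ a ∈ Ω, ∃ r : ℝ, 0 < r ∧ closure (Ball a r) ⊆ Ω ∧ IsMaximal (Ball a r) φ) ∧
    (∃ Ω₁ Ω₂ : Set (Fin n → ℂ), IsOpen Ω₁ ∧ IsOpen Ω₂ ∧ Ω₁ ∪ Ω₂ = Ω ∧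
      IsMaximal Ω₁ φ ∧ IsMaximal Ω₂ φ) ∧
    ¬ IsMaximal Ω φ

lemma cont_sq {n : ℕ} (a : Fin n → ℂ) :
    Continuous (fun x : Fin n → ℂ => ∑ i, ‖x i - a i‖ ^ 2) := by
  fun_prop

lemma isOpen_Ball {n : ℕ} (a : Fin n → ℂ) (r : ℝ) : IsOpen (Ball a r) :=
  isOpen_lt (cont_sq a) continuous_const

lemma exists_ball {n : ℕ} (U : Set (Fin n → ℂ)) (hU : IsOpen U) (a : Fin n → ℂ) (ha : a ∈ U) :
    ∃ r : ℝ, 0 < r ∧ closure (Ball a r) ⊆ U := by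
  obtain ⟨ρ, hρ, hsub⟩ := Metric.isOpen_iff.1 hU a ha
  have hr : (0 : ℝ) < ρ / 2 := by positivity
  refine ⟨ρ / 2, hr, ?_⟩
  have h1 : closure (Ball a (ρ / 2)) ⊆ {x | ∑ i, ‖x i - a i‖ ^ 2 ≤ (ρ / 2) ^ 2} :=
    closure_minimal (fun x (hx : ∑ i, ‖x i - a i‖ ^ 2 < (ρ / 2) ^ 2) =>
      show ∑ i, ‖x i - a i‖ ^ 2 ≤ (ρ / 2) ^ 2 from hx.le)
      (isClosed_le (cont_sq a) continuous_const)
  refine h1.trans fun x hx => hsub ?_
  have hx' : ∑ i, ‖x i - a i‖ ^ 2 ≤ (ρ / 2) ^ 2 := hx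
  rw [mem_ball, dist_eq_norm, pi_norm_lt_iff hρ]
  intro i
  have hi : ‖x i - a i‖ ^ 2 ≤ (ρ / 2) ^ 2 :=
    (Finset.single_le_sum (f := fun i => ‖x i - a i‖ ^ 2) (fun i _ => by positivity)
      (Finset.mem_univ i)).trans hx'
  have hi' : ‖x i - a i‖ ≤ ρ / 2 := le_of_sq_le_sq hi hr.le
  have hi'' : ‖(x - a) i‖ ≤ ρ / 2 := hi'
  linarith

lemma general {k : ℕ} (Ω : Set (Fin (k + 2) → ℂ)) (hΩ : IsOpen Ω)
    (h1 : ∀ x ∈ Ω, ‖x 0‖ < 1 ∧ ‖x 1‖ < 1)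
    (h2 : ∀ x : Fin (k + 2) → ℂ, ‖x 0‖ ≤ 1 / 2 → ‖x 1‖ ≤ 1 / 2 →
      (∀ i : Fin k, x i.succ.succ = 0) → x ∈ Ω) :
    ∃ φ, OnlyLocallyMaximal Ω φ := by
  obtain ⟨φ, hpsh, hfin, ⟨Ω₁, Ω₂, ho1, ho2, hun, hm1, hm2⟩, hnot⟩ :=
    Pool.Agent.KS6_20.PS.main Ω hΩ h1 h2
  refine ⟨φ, hpsh, hfin, fun a ha => ?_, ⟨Ω₁, Ω₂, ho1, ho2, hun, hm1 _ ho1 subset_rfl,
    hm2 _ ho2 subset_rfl⟩, hnot⟩
  rw [← hun] at ha
  rcases ha with ha | ha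
  · obtain ⟨r, hr, hcl⟩ := exists_ball Ω₁ ho1 a ha
    exact ⟨r, hr, hcl.trans (hun ▸ subset_union_left),
      hm1 _ (isOpen_Ball a r) (subset_closure.trans hcl)⟩
  · obtain ⟨r, hr, hcl⟩ := exists_ball Ω₂ ho2 a ha
    exact ⟨r, hr, hcl.trans (hun ▸ subset_union_right),
      hm2 _ (isOpen_Ball a r) (subset_closure.trans hcl)⟩

/-- the unit ball of `ℂⁿ` is one of the domains of `result` -/
lemma unit_ball (k : ℕ) : ∃ φ, OnlyLocallyMaximal (Ball (0 : Fin (k + 2) → ℂ) 1) φ := by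
  refine general _ (isOpen_Ball _ _) (fun x hx => ?_) (fun x h0 h1 h2 => ?_)
  · have hx' : ∑ i, ‖x i - (0 : Fin (k + 2) → ℂ) i‖ ^ 2 < 1 ^ 2 := hx
    have h3 : ∀ i, ‖x i‖ < 1 := by
      intro i
      have h4 : ‖x i - (0 : Fin (k + 2) → ℂ) i‖ ^ 2 ≤ _ :=
        Finset.single_le_sum (f := fun i => ‖x i - (0 : Fin (k + 2) → ℂ) i‖ ^ 2)
          (fun i _ => by positivity) (Finset.mem_univ i)
      have h5 : ‖x i - (0 : Fin (k + 2) → ℂ) i‖ ^ 2 < 1 ^ 2 := h4.trans_lt hx'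
      rw [Pi.zero_apply, sub_zero] at h5
      exact lt_of_pow_lt_pow_left₀ 2 zero_le_one h5
    exact ⟨h3 0, h3 1⟩
  · show ∑ i, ‖x i - (0 : Fin (k + 2) → ℂ) i‖ ^ 2 < 1 ^ 2
    rw [Fin.sum_univ_succ, Fin.sum_univ_succ]
    have h3 : ∑ i : Fin k, ‖x i.succ.succ - (0 : Fin (k + 2) → ℂ) i.succ.succ‖ ^ 2 = 0 := by
      apply Finset.sum_eq_zero
      intro i _
      rw [h2 i]
      simp
    rw [h3]
    have h1' : ‖x (Fin.succ 0)‖ ≤ 1 / 2 := h1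
    simp only [Pi.zero_apply, sub_zero]
    nlinarith [norm_nonneg (x 0), norm_nonneg (x (Fin.succ 0))]

/-- the unit polydisc of `ℂⁿ` is one of the domains of `result` -/
lemma unit_polydisc (k : ℕ) :
    ∃ φ, OnlyLocallyMaximal {x : Fin (k + 2) → ℂ | ∀ i, ‖x i‖ < 1} φ := by
  refine general _ ?_ (fun x hx => ⟨hx 0, hx 1⟩) (fun x h0 h1 h2 => ?_)
  · have e : {x : Fin (k + 2) → ℂ | ∀ i, ‖x i‖ < 1} = ball (0 : Fin (k + 2) → ℂ) 1 := by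
      ext x
      rw [mem_ball_zero_iff, pi_norm_lt_iff one_pos]
      rfl
    rw [e]
    exact isOpen_ball
  · intro i
    refine Fin.cases ?_ (fun i => ?_) i
    · linarith
    · refine Fin.cases ?_ (fun i => ?_) i
      · have h1' : ‖x (Fin.succ 0)‖ ≤ 1 / 2 := h1
        linarith
      · rw [h2 i, norm_zero]
        exact one_pos

/-- **Maximality of plurisubharmonic functions is not a local notion in any dimension `n ≥ 2`**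
(`n = k + 2`). If `Ω` is a domain of `ℂⁿ` with
`{|z₁| ≤ 1/2, |z₂| ≤ 1/2, z₃ = ... = zₙ = 0} ⊆ Ω ⊆ {|z₁| < 1, |z₂| < 1}`, for instance the unit ball
(`unit_ball`) or the unit polydisc (`unit_polydisc`) of `ℂⁿ`, then there is a
plurisubharmonic function on `Ω` that is locally maximal, and even maximal on each of two open sets
with union `Ω`, but not maximal on `Ω`. -/
theorem result (k : ℕ) (Ω : Set (Fin (k + 2) → ℂ)) (hΩ : IsOpen Ω) (_hc : IsConnected Ω)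
    (h1 : ∀ x ∈ Ω, ‖x 0‖ < 1 ∧ ‖x 1‖ < 1)
    (h2 : ∀ x : Fin (k + 2) → ℂ, ‖x 0‖ ≤ 1 / 2 → ‖x 1‖ ≤ 1 / 2 →
      (∀ i : Fin k, x i.succ.succ = 0) → x ∈ Ω) :
    ∃ φ, OnlyLocallyMaximal Ω φ :=
  general Ω hΩ h1 h2

end Pool.Agent.Results.MP_9cdd18_an.EveryDimension
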